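import Mathlib
import Pool.Agent.Helpers.H4_Cyc2

set_option autoImplicit false

namespace Pool.Agent.Results.MP_72c5f4_co.ExpGrowth

open Finset Pool.Agent.H4Cyc Pool.Agent.H4Cyc2

/-- `B` is a Steiner triple system on `ZMod n` invariant under `x ↦ x + 1`. -/
def IsCyclicSTS (n : ℕ) (B : Finset (Finset (ZMod n))) : Prop :=
  (∀ b ∈ B, b.card = 3) ∧
  (∀ x y : ZMod n, x ≠ y → ∃! b : Finset (ZMod n), b ∈ B ∧ x ∈ b ∧ y ∈ b) ∧
  (∀ b ∈ B, b.image (fun x => x + 1) ∈ B)

/-- some permutation of the points maps the triples of `B` onto the triples of `B'`. -/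
def Isomorphic (n : ℕ) (B B' : Finset (Finset (ZMod n))) : Prop :=
  ∃ σ : Equiv.Perm (ZMod n), B.image (fun b => b.image σ) = B'

/-- For every `n ≥ 135` with `n ≡ 1` or `3 (mod 6)` there are at least `⌊2^⌊n/6⌋ / n⌋`
pairwise non-isomorphic cyclic Steiner triple systems of order `n`. -/
theorem result (n : ℕ) (hn : 135 ≤ n) (hmod : n % 6 = 1 ∨ n % 6 = 3) :
    ∃ B : Fin (2 ^ (n / 6) / n) → Finset (Finset (ZMod n)),
      (∀ i, IsCyclicSTS n (B i)) ∧ ∀ i j, i ≠ j → ¬ Isomorphic n (B i) (B j) := by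
  classical
  obtain ⟨t, ht6, hnt⟩ : ∃ t, n / 6 = t ∧ (n = 6*t+1 ∨ n = 6*t+3) := ⟨n/6, rfl, by omega⟩
  have : NeZero n := ⟨by omega⟩
  obtain ⟨b, hb1, hb2⟩ := heffter n t (by omega) hnt
  have hcov := fun ε => fam_cov (b := b) (by omega) hnt hb2 ε
  have hu : ∀ ε : Fin t → Bool, ∀ x y : ZMod n, x ≠ y →
      ∃! c : Finset (ZMod n), c ∈ fam n t b ε ∧ x ∈ c ∧ y ∈ c := fun ε =>
    unique_of_count _ (fam_card3 hb1 ε) (hcov ε) (fam_card_le hnt ε)
  have hinj := fam_injective hb1 hu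
  let L : Finset (Finset (Finset (ZMod n))) := univ.image (fam n t b)
  have hLcard : L.card = 2^t := by
    rw [Finset.card_image_of_injective _ hinj]
    simp
  have hLinv : ∀ Y ∈ L, act (tau n) Y = Y := by
    intro Y hY
    obtain ⟨ε, -, rfl⟩ := mem_image.1 hY
    apply Finset.eq_of_subset_of_card_le
    · intro c hc
      unfold act at hc
      obtain ⟨d, hd, rfl⟩ := mem_map.1 hc
      have h1 := fam_inv hnt ε d hd
      have h2 : (Finset.mapEmbedding (tau n).toEmbedding).toEmbedding d = d.image (fun x => x + 1) := by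
        ext x
        simp [Finset.mapEmbedding, tau]
      rw [h2]; exact h1
    · unfold act; rw [card_map]
  rw [ht6]
  obtain ⟨B, hB1, hB2⟩ := many_classes (2 ^ t / n) L hLinv (by
    rw [hLcard]; exact Nat.mul_div_le _ _)
  refine ⟨B, fun i => ?_, ?_⟩
  · obtain ⟨ε, -, hε⟩ := mem_image.1 (hB1 i)
    rw [← hε]
    exact ⟨fam_card3 hb1 ε, hu ε, fam_inv hnt ε⟩
  · rintro i j hij ⟨σ, hσ⟩
    apply hB2 i j hij σ
    rw [← hσ]
    unfold act
    ext c
    simp only [mem_map, mem_image]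
    constructor
    · rintro ⟨d, hd, rfl⟩
      refine ⟨d, hd, ?_⟩
      change d.image σ = d.map σ.toEmbedding
      rw [Finset.map_eq_image]; rfl
    · rintro ⟨d, hd, rfl⟩
      refine ⟨d, hd, ?_⟩
      change d.map σ.toEmbedding = d.image σ
      rw [Finset.map_eq_image]; rfl

end Pool.Agent.Results.MP_72c5f4_co.ExpGrowth
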